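import Pool.Agent.W601.RP.Stm2

set_option autoImplicit false
open scoped Classical
open Filter Topology

namespace Pool.Agent.W657.RP

open Pool.Agent.W601.RP

lemma re_circle (y : TT) :
    ((AddCircle.toCircle y : Circle) : ℂ).re = Real.cos (2 * Real.pi * ‖y‖) := by
  obtain ⟨x, rfl⟩ : ∃ x : ℝ, ((x : ℝ) : TT) = y := QuotientAddGroup.mk_surjective y
  rw [UnitAddCircle.norm_eq]
  have h1 : ((AddCircle.toCircle ((x : ℝ) : TT) : Circle) : ℂ).re = Real.cos (2 * Real.pi * x) := by
    rw [AddCircle.toCircle_apply_mk, Circle.coe_exp, Complex.exp_ofReal_mul_I_re, div_one]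
  rw [h1]
  have h2 : Real.cos (2 * Real.pi * |x - round x|) = Real.cos (2 * Real.pi * (x - round x)) := by
    rw [← Real.cos_abs (2 * Real.pi * (x - round x)), abs_mul,
      abs_of_pos (by positivity : (0:ℝ) < 2 * Real.pi)]
  rw [h2]
  have h3 : 2 * Real.pi * (x - round x) = 2 * Real.pi * x - (round x : ℝ) * (2 * Real.pi) := by
    ring
  rw [h3, Real.cos_sub_int_mul_two_pi]

lemma norm_le_half (y : TT) : ‖y‖ ≤ 1 / 2 := by
  have := AddCircle.norm_le_half_period (p := (1:ℝ)) (x := y) one_ne_zero
  simpa using this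

theorem wwp : S_WW := by
  have hpi := Real.pi_pos
  refine ⟨?_, ?_, ?_, ?_⟩
  · intro y
    unfold ww
    rw [re_circle]
    have h1 := Real.neg_one_le_cos (2 * Real.pi * ‖y‖)
    have h2 := Real.cos_le_one (2 * Real.pi * ‖y‖)
    constructor <;> linarith
  · intro δ hδ
    have hm0 : 0 < min δ (1/2) := lt_min hδ (by norm_num)
    have hm1 : min δ (1/2) ≤ 1/2 := min_le_right _ _
    have hlt : Real.cos (2 * Real.pi * min δ (1/2)) < 1 := by
      have : Real.cos (2 * Real.pi * min δ (1/2)) < Real.cos 0 := by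
        apply Real.cos_lt_cos_of_nonneg_of_le_pi (le_refl _)
        · nlinarith
        · positivity
      rwa [Real.cos_zero] at this
    refine ⟨max ((1 + Real.cos (2 * Real.pi * min δ (1/2))) / 2) (1/2), ?_, ?_, ?_⟩
    · exact lt_of_lt_of_le (by norm_num) (le_max_right _ _)
    · apply max_lt
      · linarith
      · norm_num
    · intro y hy
      apply le_max_of_le_left
      unfold ww
      rw [re_circle]
      have hy2 := norm_le_half y
      have : Real.cos (2 * Real.pi * ‖y‖) ≤ Real.cos (2 * Real.pi * min δ (1/2)) := by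
        apply Real.cos_le_cos_of_nonneg_of_le_pi
        · positivity
        · nlinarith
        · apply mul_le_mul_of_nonneg_left _ (by positivity)
          exact le_trans (min_le_left _ _) hy
      linarith
  · intro ρ hρ
    have hc : Filter.Tendsto (fun t : ℝ => (1 + Real.cos (2 * Real.pi * t)) / 2) (𝓝 0) (𝓝 1) := by
      have h : Continuous (fun t : ℝ => (1 + Real.cos (2 * Real.pi * t)) / 2) := by fun_prop
      have h0 := h.tendsto 0
      simpa using h0
    have hev : ∀ᶠ t in 𝓝 (0:ℝ), ρ < (1 + Real.cos (2 * Real.pi * t)) / 2 :=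
      hc.eventually (lt_mem_nhds hρ)
    rw [Metric.eventually_nhds_iff] at hev
    obtain ⟨ε, hε, he⟩ := hev
    obtain ⟨m, hm⟩ := exists_nat_one_div_lt hε
    refine ⟨m + 1, Nat.le_add_left _ _, ?_⟩
    intro y hy
    unfold ww
    rw [re_circle]
    have h1 : dist ‖y‖ 0 < ε := by
      rw [Real.dist_eq, sub_zero, abs_of_nonneg (norm_nonneg y)]
      refine lt_of_le_of_lt hy ?_
      push_cast
      exact hm
    exact le_of_lt (he h1)
  · intro y hy
    rw [re_circle]
    rw [← Real.cos_pi_div_three]
    apply Real.cos_le_cos_of_nonneg_of_le_pi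
    · positivity
    · linarith
    · nlinarith

end Pool.Agent.W657.RP
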